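import Mathlib
import Pool.Agent.Q160.UpcEven
import Pool.Agent.Q160.Upc8

set_option autoImplicit false

namespace Pool.Agent.Results.MP_0aa0f2_co.AllMultiplesOfFour

/-- The window of length `n` at position `i` of the cyclic partial word `u` covers the word `w`.
The symbol `none` is the wild-card. -/
def Covers {A : Type} {n N : ℕ} (u : ZMod N → Option A) (i : ZMod N) (w : Fin n → A) : Prop :=
  ∀ j : Fin n, u (i + (j.val : ℕ)) = none ∨ u (i + (j.val : ℕ)) = some (w j)

/-- The cyclic partial word `u` of length `N ≥ 1` is a universal partial cycle for the words of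
length `n` over the alphabet `A`. -/
def IsUpcycle {A : Type} (n : ℕ) {N : ℕ} (u : ZMod N → Option A) : Prop :=
  0 < N ∧ ∀ w : Fin n → A, ∃! i : ZMod N, Covers u i w

/-- `u` contains at least one wild-card and at least one letter. -/
def Nontriv {A : Type} {N : ℕ} (u : ZMod N → Option A) : Prop :=
  (∃ i, u i = none) ∧ ∃ i, u i ≠ none

open Pool.Agent.Q160.Upc

/-- Change of the alphabet. -/
theorem transfer {n N : ℕ} (hN : 0 < N) (s : ZMod N → Option Bool)
    (h1 : ∀ w : Fin n → Bool, ∃! i : ZMod N, Fits (fun j => s (i + (j.val : ℕ))) w)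
    (h2 : ∃ i, s i = none) (h3 : ∃ i, s i ≠ none) :
    ∃ u : ZMod N → Option (Fin 2), IsUpcycle n u ∧ Nontriv u := by
  have e : Bool ≃ Fin 2 := finTwoEquiv.symm
  have hnone : ∀ i, (s i).map e = none ↔ s i = none := by
    intro i
    cases s i <;> simp
  have hsome : ∀ i (c : Fin 2), (s i).map e = some c ↔ s i = some (e.symm c) := by
    intro i c
    cases h : s i with
    | none => simp
    | some b =>
      simp only [Option.map_some, Option.some.injEq]
      exact ⟨fun h => by rw [← h, Equiv.symm_apply_apply], fun h => by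
        rw [h, Equiv.apply_symm_apply]⟩
  refine ⟨fun i => (s i).map e, ⟨hN, ?_⟩, ?_, ?_⟩
  · intro w
    obtain ⟨i, hi, hu⟩ := h1 (fun j => e.symm (w j))
    refine ⟨i, ?_, ?_⟩
    · intro j
      rcases hi j with h | h
      · left; exact (hnone _).mpr h
      · right; exact (hsome _ _).mpr h
    · intro i' hi'
      apply hu
      intro j
      rcases hi' j with h | h
      · left; exact (hnone _).mp h
      · right; exact (hsome _ _).mp h
  · obtain ⟨i, hi⟩ := h2
    exact ⟨i, (hnone i).mpr hi⟩
  · obtain ⟨i, hi⟩ := h3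
    exact ⟨i, fun h => hi ((hnone i).mp h)⟩

theorem of_lab {m : ℕ} (hm : 1 ≤ m) {P : (Fin m → Bool) → Bool} (hP : Lab m P) :
    ∃ (N : ℕ) (u : ZMod N → Option (Fin 2)), IsUpcycle (4 * m) u ∧ Nontriv u := by
  obtain ⟨J, hJ⟩ : ∃ J, J + 1 = 4 * m := ⟨4 * m - 1, by omega⟩
  obtain ⟨N, hN, s, h1, h2⟩ := exists_upcycle hP hJ
  rw [← hJ]
  refine ⟨N, transfer hN s h1 ?_ ?_⟩
  · by_contra hcon
    push Not at hcon
    have h0 := h2 0
    have : IsEmpty {j : Fin (J + 1) // s (0 + (j.val : ℕ)) = none} := ⟨fun j => hcon _ j.2⟩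
    rw [Nat.card_of_isEmpty] at h0
    omega
  · by_contra hcon
    push Not at hcon
    have h0 := h2 0
    have h3 : Nat.card {j : Fin (J + 1) // s (0 + (j.val : ℕ)) = none} =
        Nat.card (Fin (J + 1)) := by
      apply Nat.card_congr
      exact Equiv.subtypeUnivEquiv (fun j => hcon _)
    rw [h3, Nat.card_eq_fintype_card, Fintype.card_fin] at h0
    omega

/-- For every `m ≥ 1` there is a nontrivial universal partial cycle for the words of length `4 m`
over a two-letter alphabet. -/
theorem result (m : ℕ) (hm : 1 ≤ m) :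
    ∃ (N : ℕ) (u : ZMod N → Option (Fin 2)), IsUpcycle (4 * m) u ∧ Nontriv u := by
  rcases Nat.lt_or_ge m 3 with h | h
  · interval_cases m
    · exact of_lab (by omega) (lab_maj (m := 1) rfl)
    · have : (4 * 2 : ℕ) = 8 := rfl
      rw [this]
      refine ⟨128, transfer (by omega) Pool.Agent.Q160.Upc8.s Pool.Agent.Q160.Upc8.universal
        ⟨0, by decide +kernel⟩ ⟨1, by decide +kernel⟩⟩
  · obtain ⟨P, hP⟩ := exists_lab h
    exact of_lab hm hP

end Pool.Agent.Results.MP_0aa0f2_co.AllMultiplesOfFour
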